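import Pool.Agent.H892R2.BU.B9B

/-!
# M10: the value of the improved witness
-/

namespace H892BU.B

open MeasureTheory Set Filter Topology Pool.Agent.H691R3.SL
open scoped Real BigOperators

noncomputable section

lemma B10_cs_cont (k : ℤ) : Continuous (cs k) := by
  unfold cs; fun_prop

lemma B10_Fs_cont (d : ℕ) (N : Fin d → ℤ) : Continuous (FsN d N) := by
  unfold FsN
  exact (continuous_finset_sum _ (fun i _ => B10_cs_cont _)).div_const _

lemma B10_GA_cont {d : ℕ} (A : ℕ → ℝ → ℝ) (hA : ∀ k, Continuous (A k)) (N : Fin d → ℤ) :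
    Continuous (GAN (d := d) A N) := by
  unfold GAN cTN
  refine continuous_finset_sum _ (fun T _ => (hA _).mul ?_)
  exact continuous_finset_prod _ (fun i _ => B10_cs_cont _)

/-- six term integral splitting -/
lemma B10_split (f1 f2 f3 f4 f5 f6 : ℝ → ℝ) (h1 : Continuous f1) (h2 : Continuous f2)
    (h3 : Continuous f3) (h4 : Continuous f4) (h5 : Continuous f5) (h6 : Continuous f6)
    (c1 c2 c3 c4 c5 c6 : ℝ) :
    ∫ x in (0:ℝ)..1, (c1 * f1 x + c2 * f2 x + c3 * f3 x + c4 * f4 x + c5 * f5 x + c6 * f6 x)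
      = c1 * (∫ x in (0:ℝ)..1, f1 x) + c2 * (∫ x in (0:ℝ)..1, f2 x) + c3 * (∫ x in (0:ℝ)..1, f3 x)
        + c4 * (∫ x in (0:ℝ)..1, f4 x) + c5 * (∫ x in (0:ℝ)..1, f5 x)
        + c6 * (∫ x in (0:ℝ)..1, f6 x) := by
  rw [intervalIntegral.integral_add, intervalIntegral.integral_add, intervalIntegral.integral_add,
    intervalIntegral.integral_add, intervalIntegral.integral_add]
  · simp only [intervalIntegral.integral_const_mul]
  all_goals
    apply Continuous.intervalIntegrable
    fun_prop

theorem pot_limitN {d : ℕ} (hd : 2 ≤ d) (η : ℝ)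
    (D : Bool → ℝ → ℝ) (hDc : ∀ c, Continuous (D c))
    (A : Bool → ℕ → ℝ → ℝ) (hAc : ∀ c k, Continuous (A c k)) (hA0 : ∀ c x, A c 0 x = 1)
    (p v : ℝ → ℝ) (hp : Continuous p) (hv : Continuous v) (ε : ℝ) (hε : 0 < ε) :
    ∀ᶠ N in DissF d,
      ∫ x in (0:ℝ)..1, ((p x - η * v x * FsN d N x) ^ 2 * (D true x * GAN (d := d) (A true) N x)
          + (1 - (p x - η * v x * FsN d N x)) ^ 2 * (D false x * GAN (d := d) (A false) N x))
        ≤ (∫ x in (0:ℝ)..1, (D true x * (p x ^ 2 - η * p x * v x * (Real.sqrt d * A true 1 x)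
              + η ^ 2 * v x ^ 2 * (1 / 2 + ((d : ℝ) - 1) / 4 * A true 2 x))
            + D false x * ((1 - p x) ^ 2 + η * (1 - p x) * v x * (Real.sqrt d * A false 1 x)
              + η ^ 2 * v x ^ 2 * (1 / 2 + ((d : ℝ) - 1) / 4 * A false 2 x)))) + ε := by
  have hDt := hDc true
  have hDf := hDc false
  have hAt0 := hAc true 0
  have hAt1 := hAc true 1
  have hAt2 := hAc true 2
  have hAf0 := hAc false 0
  have hAf1 := hAc false 1
  have hAf2 := hAc false 2
  -- the weights
  have cW1 : Continuous (fun x => D true x * p x ^ 2) := by fun_prop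
  have cW2 : Continuous (fun x => D true x * (p x * v x)) := by fun_prop
  have cW3 : Continuous (fun x => D true x * v x ^ 2) := by fun_prop
  have cW4 : Continuous (fun x => D false x * (1 - p x) ^ 2) := by fun_prop
  have cW5 : Continuous (fun x => D false x * ((1 - p x) * v x)) := by fun_prop
  have cW6 : Continuous (fun x => D false x * v x ^ 2) := by fun_prop
  have o1 := (orth_FN hd (fun x => D true x * p x ^ 2) (A true)
    (fun k => (cW1.mul (hAc true k)).intervalIntegrable _ _)).1
  have o2 := (orth_FN hd (fun x => D true x * (p x * v x)) (A true)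
    (fun k => (cW2.mul (hAc true k)).intervalIntegrable _ _)).2.1
  have o3 := (orth_FN hd (fun x => D true x * v x ^ 2) (A true)
    (fun k => (cW3.mul (hAc true k)).intervalIntegrable _ _)).2.2
  have o4 := (orth_FN hd (fun x => D false x * (1 - p x) ^ 2) (A false)
    (fun k => (cW4.mul (hAc false k)).intervalIntegrable _ _)).1
  have o5 := (orth_FN hd (fun x => D false x * ((1 - p x) * v x)) (A false)
    (fun k => (cW5.mul (hAc false k)).intervalIntegrable _ _)).2.1
  have o6 := (orth_FN hd (fun x => D false x * v x ^ 2) (A false)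
    (fun k => (cW6.mul (hAc false k)).intervalIntegrable _ _)).2.2
  have lim := (((((o1.const_mul 1).add (o2.const_mul (-(2 * η)))).add (o3.const_mul (η ^ 2))).add
    (o4.const_mul 1)).add (o5.const_mul (2 * η))).add (o6.const_mul (η ^ 2))
  -- identify the sequence
  have hseq : ∀ N : Fin d → ℤ, ∫ x in (0:ℝ)..1,
        ((p x - η * v x * FsN d N x) ^ 2 * (D true x * GAN (d := d) (A true) N x)
          + (1 - (p x - η * v x * FsN d N x)) ^ 2 * (D false x * GAN (d := d) (A false) N x))
      = 1 * (∫ x in (0:ℝ)..1, D true x * p x ^ 2 * GAN (d := d) (A true) N x)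
        + (-(2 * η)) * (∫ x in (0:ℝ)..1, D true x * (p x * v x) * GAN (d := d) (A true) N x * FsN d N x)
        + η ^ 2 * (∫ x in (0:ℝ)..1, D true x * v x ^ 2 * GAN (d := d) (A true) N x * (FsN d N x) ^ 2)
        + 1 * (∫ x in (0:ℝ)..1, D false x * (1 - p x) ^ 2 * GAN (d := d) (A false) N x)
        + (2 * η) * (∫ x in (0:ℝ)..1, D false x * ((1 - p x) * v x) * GAN (d := d) (A false) N x * FsN d N x)
        + η ^ 2 * (∫ x in (0:ℝ)..1, D false x * v x ^ 2 * GAN (d := d) (A false) N x * (FsN d N x) ^ 2) := by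
    intro N
    have cF := B10_Fs_cont d N
    have cG1 := B10_GA_cont (d := d) (A true) (hAc true) N
    have cG0 := B10_GA_cont (d := d) (A false) (hAc false) N
    have s0 := B10_split (fun x => D true x * p x ^ 2 * GAN (d := d) (A true) N x)
      (fun x => D true x * (p x * v x) * GAN (d := d) (A true) N x * FsN d N x)
      (fun x => D true x * v x ^ 2 * GAN (d := d) (A true) N x * (FsN d N x) ^ 2)
      (fun x => D false x * (1 - p x) ^ 2 * GAN (d := d) (A false) N x)
      (fun x => D false x * ((1 - p x) * v x) * GAN (d := d) (A false) N x * FsN d N x)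
      (fun x => D false x * v x ^ 2 * GAN (d := d) (A false) N x * (FsN d N x) ^ 2)
      (by fun_prop) (by fun_prop) (by fun_prop) (by fun_prop) (by fun_prop) (by fun_prop)
      1 (-(2 * η)) (η ^ 2) 1 (2 * η) (η ^ 2)
    rw [← s0]
    refine intervalIntegral.integral_congr (fun x _ => ?_)
    ring
  have hlim : 1 * (∫ x in (0:ℝ)..1, D true x * p x ^ 2 * A true 0 x)
        + (-(2 * η)) * (Real.sqrt d / 2 * ∫ x in (0:ℝ)..1, D true x * (p x * v x) * A true 1 x)
        + η ^ 2 * ((1 / 2 : ℝ) * (∫ x in (0:ℝ)..1, D true x * v x ^ 2 * A true 0 x)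
          + ((d : ℝ) - 1) / 4 * ∫ x in (0:ℝ)..1, D true x * v x ^ 2 * A true 2 x)
        + 1 * (∫ x in (0:ℝ)..1, D false x * (1 - p x) ^ 2 * A false 0 x)
        + (2 * η) * (Real.sqrt d / 2 * ∫ x in (0:ℝ)..1, D false x * ((1 - p x) * v x) * A false 1 x)
        + η ^ 2 * ((1 / 2 : ℝ) * (∫ x in (0:ℝ)..1, D false x * v x ^ 2 * A false 0 x)
          + ((d : ℝ) - 1) / 4 * ∫ x in (0:ℝ)..1, D false x * v x ^ 2 * A false 2 x)
      = ∫ x in (0:ℝ)..1, (D true x * (p x ^ 2 - η * p x * v x * (Real.sqrt d * A true 1 x)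
              + η ^ 2 * v x ^ 2 * (1 / 2 + ((d : ℝ) - 1) / 4 * A true 2 x))
            + D false x * ((1 - p x) ^ 2 + η * (1 - p x) * v x * (Real.sqrt d * A false 1 x)
              + η ^ 2 * v x ^ 2 * (1 / 2 + ((d : ℝ) - 1) / 4 * A false 2 x))) := by
    have s1 := B10_split (fun x => D true x * p x ^ 2 * A true 0 x)
      (fun x => D true x * (p x * v x) * A true 1 x)
      (fun x => (1 / 2 : ℝ) * (D true x * v x ^ 2 * A true 0 x)
        + ((d : ℝ) - 1) / 4 * (D true x * v x ^ 2 * A true 2 x))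
      (fun x => D false x * (1 - p x) ^ 2 * A false 0 x)
      (fun x => D false x * ((1 - p x) * v x) * A false 1 x)
      (fun x => (1 / 2 : ℝ) * (D false x * v x ^ 2 * A false 0 x)
        + ((d : ℝ) - 1) / 4 * (D false x * v x ^ 2 * A false 2 x))
      (by fun_prop) (by fun_prop) (by fun_prop) (by fun_prop) (by fun_prop) (by fun_prop)
      1 (-(2 * η) * (Real.sqrt d / 2)) (η ^ 2) 1 (2 * η * (Real.sqrt d / 2)) (η ^ 2)
    have t1 : (∫ x in (0:ℝ)..1, ((1 / 2 : ℝ) * (D true x * v x ^ 2 * A true 0 x)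
        + ((d : ℝ) - 1) / 4 * (D true x * v x ^ 2 * A true 2 x)))
        = (1 / 2 : ℝ) * (∫ x in (0:ℝ)..1, D true x * v x ^ 2 * A true 0 x)
          + ((d : ℝ) - 1) / 4 * ∫ x in (0:ℝ)..1, D true x * v x ^ 2 * A true 2 x := by
      rw [intervalIntegral.integral_add, intervalIntegral.integral_const_mul,
        intervalIntegral.integral_const_mul]
      · apply Continuous.intervalIntegrable; fun_prop
      · apply Continuous.intervalIntegrable; fun_prop
    have t2 : (∫ x in (0:ℝ)..1, ((1 / 2 : ℝ) * (D false x * v x ^ 2 * A false 0 x)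
        + ((d : ℝ) - 1) / 4 * (D false x * v x ^ 2 * A false 2 x)))
        = (1 / 2 : ℝ) * (∫ x in (0:ℝ)..1, D false x * v x ^ 2 * A false 0 x)
          + ((d : ℝ) - 1) / 4 * ∫ x in (0:ℝ)..1, D false x * v x ^ 2 * A false 2 x := by
      rw [intervalIntegral.integral_add, intervalIntegral.integral_const_mul,
        intervalIntegral.integral_const_mul]
      · apply Continuous.intervalIntegrable; fun_prop
      · apply Continuous.intervalIntegrable; fun_prop
    rw [← t1, ← t2, ← mul_assoc (-(2 * η)), ← mul_assoc (2 * η), ← s1]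
    refine intervalIntegral.integral_congr (fun x _ => ?_)
    simp only [hA0]
    ring
  rw [← hlim]
  have hev := lim.eventually (ge_mem_nhds (show _ < _ + ε from lt_add_of_pos_right _ hε))
  filter_upwards [hev] with N hN
  rw [hseq N]
  exact hN

end

end H892BU.B
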