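import Pool.Agent.H892R2.BU.BDefs

/-!
# M9B: slow averages, first and second order in `Fs`
-/

namespace H892BU.B

open MeasureTheory Set Filter Topology Pool.Agent.H691R3.SL
open scoped Real BigOperators

noncomputable section

lemma B9B_cs_cont (k : ℤ) : Continuous (cs k) := by
  unfold cs; fun_prop

lemma B9B_ii {d : ℕ} (W : ℝ → ℝ) (hW : IntervalIntegrable W volume 0 1) (e : Fin d → ℕ) (N : Fin d → ℤ) :
    IntervalIntegrable (fun x => W x * ∏ i, (cs (N i) x) ^ (e i)) volume 0 1 := by
  refine hW.mul_continuousOn ?_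
  apply Continuous.continuousOn
  refine continuous_finset_prod _ (fun i _ => ?_)
  exact (B9B_cs_cont _).pow _

lemma B9B_sum_lim {d : ℕ} {ι : Type*} (s : Finset ι) (W : ι → ℝ → ℝ)
    (hW : ∀ k, IntervalIntegrable (W k) volume 0 1) (e : ι → Fin d → ℕ)
    (he : ∀ k i, e k i ≤ 3) :
    Tendsto (fun N : Fin d → ℤ => ∫ x in (0:ℝ)..1, ∑ k ∈ s, W k x * ∏ i, (cs (N i) x) ^ (e k i))
      (DissF d) (𝓝 (∑ k ∈ s, (∏ i, momN (e k i)) * ∫ x in (0:ℝ)..1, W k x)) := by
  have h1 : ∀ N : Fin d → ℤ, ∫ x in (0:ℝ)..1, ∑ k ∈ s, W k x * ∏ i, (cs (N i) x) ^ (e k i)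
      = ∑ k ∈ s, ∫ x in (0:ℝ)..1, W k x * ∏ i, (cs (N i) x) ^ (e k i) := by
    intro N
    exact intervalIntegral.integral_finset_sum (fun k _ => B9B_ii (W k) (hW k) (e k) N)
  simp_rw [h1]
  exact tendsto_finset_sum _ (fun k _ => orthN (W k) (hW k) (e k) (he k))

lemma B9B_cT {d : ℕ} (N : Fin d → ℤ) (T : Finset (Fin d)) (x : ℝ) :
    cTN N T x = ∏ i, (cs (N i) x) ^ (if i ∈ T then 1 else 0) := by
  unfold cTN
  rw [← Finset.prod_filter_mul_prod_filter_not Finset.univ (fun i => i ∈ T)]
  have h1 : ∏ i ∈ Finset.univ.filter (fun i => i ∈ T), (cs (N i) x) ^ (if i ∈ T then 1 else 0)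
      = ∏ i ∈ T, cs (N i) x := by
    rw [Finset.filter_mem_eq_inter, Finset.univ_inter]
    refine Finset.prod_congr rfl (fun i hi => ?_)
    rw [if_pos hi, pow_one]
  have h2 : ∏ i ∈ Finset.univ.filter (fun i => ¬ i ∈ T), (cs (N i) x) ^ (if i ∈ T then 1 else 0)
      = 1 := by
    refine Finset.prod_eq_one (fun i hi => ?_)
    rw [if_neg (Finset.mem_filter.mp hi).2, pow_zero]
  rw [h1, h2, mul_one]

lemma B9B_single {d : ℕ} (N : Fin d → ℤ) (j : Fin d) (x : ℝ) :
    cs (N j) x = ∏ i, (cs (N i) x) ^ (if i = j then 1 else 0) := by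
  rw [Finset.prod_eq_single j]
  · rw [if_pos rfl, pow_one]
  · intro b _ hb
    rw [if_neg hb, pow_zero]
  · intro h; exact absurd (Finset.mem_univ j) h

lemma B9B_mom1 {d : ℕ} (T : Finset (Fin d)) :
    ∏ i : Fin d, momN (if i ∈ T then 1 else 0) = if T = ∅ then 1 else 0 := by
  split_ifs with h
  · subst h
    refine Finset.prod_eq_one (fun i _ => ?_)
    simp [momN]
  · obtain ⟨i, hi⟩ := Finset.nonempty_iff_ne_empty.mpr h
    refine Finset.prod_eq_zero (Finset.mem_univ i) ?_
    rw [if_pos hi]; rfl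

lemma B9B_mom2 {d : ℕ} (T : Finset (Fin d)) (j : Fin d) :
    ∏ i : Fin d, momN ((if i ∈ T then 1 else 0) + (if i = j then 1 else 0))
      = if T = {j} then 1 / 2 else 0 := by
  split_ifs with h
  · subst h
    rw [Finset.prod_eq_single j]
    · simp [momN]
    · intro b _ hb
      simp [hb, momN]
    · intro h; exact absurd (Finset.mem_univ j) h
  · by_cases h2 : ∃ i ∈ T, i ≠ j
    · obtain ⟨i, hi, hij⟩ := h2
      refine Finset.prod_eq_zero (Finset.mem_univ i) ?_
      rw [if_pos hi, if_neg hij]; rfl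
    · push Not at h2
      refine Finset.prod_eq_zero (Finset.mem_univ j) ?_
      have hj : j ∉ T := by
        intro hj
        apply h
        ext i
        simp only [Finset.mem_singleton]
        exact ⟨fun hi => h2 i hi, fun hi => hi ▸ hj⟩
      rw [if_neg hj, if_pos rfl]; rfl

lemma B9B_mom3 {d : ℕ} (T : Finset (Fin d)) (j k : Fin d) :
    ∏ i : Fin d, momN ((if i ∈ T then 1 else 0) + (if i = j then 1 else 0)
        + (if i = k then 1 else 0))
      = if j = k then (if T = ∅ then 1 / 2 else 0) else (if T = {j, k} then 1 / 4 else 0) := by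
  split_ifs with h1 h2 h3
  · subst h1; subst h2
    rw [Finset.prod_eq_single j]
    · simp [momN]
    · intro b _ hb
      simp [hb, momN]
    · intro h; exact absurd (Finset.mem_univ j) h
  · subst h1
    by_cases hj : j ∈ T
    · refine Finset.prod_eq_zero (Finset.mem_univ j) ?_
      rw [if_pos hj, if_pos rfl]; rfl
    · obtain ⟨i, hi⟩ := Finset.nonempty_iff_ne_empty.mpr h2
      have hij : i ≠ j := fun h => hj (h ▸ hi)
      refine Finset.prod_eq_zero (Finset.mem_univ i) ?_
      rw [if_pos hi, if_neg hij]; rfl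
  · subst h3
    have hkj : k ≠ j := fun h => h1 h.symm
    rw [Finset.prod_eq_mul j k h1]
    · simp [momN, h1, hkj]; norm_num
    · intro b _ hb
      simp [hb.1, hb.2, momN]
    · intro h; exact absurd (Finset.mem_univ j) h
    · intro h; exact absurd (Finset.mem_univ k) h
  · have hkj : k ≠ j := fun h => h1 h.symm
    by_cases hj : j ∈ T
    · by_cases hk : k ∈ T
      · -- exists i in T other than j,k
        have : ∃ i ∈ T, i ≠ j ∧ i ≠ k := by
          by_contra hcon
          push Not at hcon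
          apply h3
          ext i
          simp only [Finset.mem_insert, Finset.mem_singleton]
          constructor
          · intro hi
            by_cases hij : i = j
            · exact Or.inl hij
            · exact Or.inr (hcon i hi hij)
          · rintro (rfl | rfl)
            · exact hj
            · exact hk
        obtain ⟨i, hi, hij, hik⟩ := this
        refine Finset.prod_eq_zero (Finset.mem_univ i) ?_
        rw [if_pos hi, if_neg hij, if_neg hik]; rfl
      · refine Finset.prod_eq_zero (Finset.mem_univ k) ?_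
        rw [if_neg hk, if_neg hkj, if_pos rfl]; rfl
    · refine Finset.prod_eq_zero (Finset.mem_univ j) ?_
      rw [if_neg hj, if_pos rfl, if_neg h1]; rfl

theorem orth_FN {d : ℕ} (hd : 2 ≤ d) (W : ℝ → ℝ) (A : ℕ → ℝ → ℝ)
    (hW : ∀ k, IntervalIntegrable (fun x => W x * A k x) volume 0 1) :
    Tendsto (fun N : Fin d → ℤ => ∫ x in (0:ℝ)..1, W x * GAN (d := d) A N x) (DissF d)
      (𝓝 (∫ x in (0:ℝ)..1, W x * A 0 x)) ∧
    Tendsto (fun N : Fin d → ℤ => ∫ x in (0:ℝ)..1, W x * GAN (d := d) A N x * FsN d N x) (DissF d)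
      (𝓝 (Real.sqrt d / 2 * ∫ x in (0:ℝ)..1, W x * A 1 x)) ∧
    Tendsto (fun N : Fin d → ℤ => ∫ x in (0:ℝ)..1, W x * GAN (d := d) A N x * (FsN d N x) ^ 2) (DissF d)
      (𝓝 ((1 / 2 : ℝ) * (∫ x in (0:ℝ)..1, W x * A 0 x)
        + ((d : ℝ) - 1) / 4 * ∫ x in (0:ℝ)..1, W x * A 2 x)) := by
  have hd0 : (0:ℝ) < d := by
    have : 0 < d := by omega
    exact_mod_cast this
  have hsd : Real.sqrt d ≠ 0 := (Real.sqrt_pos.mpr hd0).ne'
  have hsq : Real.sqrt d * Real.sqrt d = d := Real.mul_self_sqrt hd0.le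
  refine ⟨?_, ?_, ?_⟩
  · have h := B9B_sum_lim (d := d) (Finset.univ : Finset (Finset (Fin d)))
      (fun T x => W x * A T.card x) (fun T => hW T.card)
      (fun T i => if i ∈ T then 1 else 0) (fun T i => by split_ifs <;> norm_num)
    simp only [B9B_mom1] at h
    have e1 : (∑ T : Finset (Fin d), (if T = ∅ then (1:ℝ) else 0) * ∫ x in (0:ℝ)..1, W x * A T.card x)
        = ∫ x in (0:ℝ)..1, W x * A 0 x := by
      rw [Finset.sum_eq_single ∅]
      · simp
      · intro b _ hb; rw [if_neg hb, zero_mul]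
      · intro h; exact absurd (Finset.mem_univ _) h
    rw [e1] at h
    refine h.congr (fun N => ?_)
    congr 1
    ext x
    unfold GAN
    rw [Finset.mul_sum]
    refine Finset.sum_congr rfl (fun T _ => ?_)
    rw [B9B_cT]; ring
  · have h := B9B_sum_lim (d := d) (Finset.univ : Finset (Finset (Fin d) × Fin d))
      (fun q x => (1 / Real.sqrt d) * (W x * A q.1.card x))
      (fun q => (hW q.1.card).const_mul _)
      (fun q i => (if i ∈ q.1 then 1 else 0) + (if i = q.2 then 1 else 0))
      (fun q i => by split_ifs <;> norm_num)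
    simp only [B9B_mom2] at h
    have e1 : (∑ q : Finset (Fin d) × Fin d, (if q.1 = {q.2} then (1/2:ℝ) else 0) *
        ∫ x in (0:ℝ)..1, (1 / Real.sqrt d) * (W x * A q.1.card x))
        = Real.sqrt d / 2 * ∫ x in (0:ℝ)..1, W x * A 1 x := by
      rw [← Finset.univ_product_univ, Finset.sum_product_right]
      have : ∀ j : Fin d, (∑ T : Finset (Fin d), (if T = {j} then (1/2:ℝ) else 0) *
          ∫ x in (0:ℝ)..1, (1 / Real.sqrt d) * (W x * A T.card x))
          = 1 / 2 * (1 / Real.sqrt d * ∫ x in (0:ℝ)..1, W x * A 1 x) := by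
        intro j
        rw [Finset.sum_eq_single {j}]
        · rw [if_pos rfl, intervalIntegral.integral_const_mul, Finset.card_singleton]
        · intro b _ hb; rw [if_neg hb, zero_mul]
        · intro h; exact absurd (Finset.mem_univ _) h
      simp only [this]
      rw [Finset.sum_const, Finset.card_univ, Fintype.card_fin, nsmul_eq_mul]
      have : (d:ℝ) * (1 / 2 * (1 / Real.sqrt d * ∫ x in (0:ℝ)..1, W x * A 1 x))
        = (Real.sqrt d * Real.sqrt d) * (1 / 2 * (1 / Real.sqrt d * ∫ x in (0:ℝ)..1, W x * A 1 x)) := by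
        rw [hsq]
      rw [this]
      field_simp
    rw [e1] at h
    refine h.congr (fun N => ?_)
    congr 1
    ext x
    rw [← Finset.univ_product_univ, Finset.sum_product]
    unfold GAN FsN
    rw [Finset.mul_sum, Finset.sum_mul]
    refine Finset.sum_congr rfl (fun T _ => ?_)
    rw [Finset.sum_div, Finset.mul_sum]
    refine Finset.sum_congr rfl (fun j _ => ?_)
    simp only [pow_add, Finset.prod_mul_distrib]
    rw [← B9B_cT, ← B9B_single]
    ring
  · have h := B9B_sum_lim (d := d) (Finset.univ : Finset (Finset (Fin d) × (Fin d × Fin d)))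
      (fun q x => (1 / (d:ℝ)) * (W x * A q.1.card x))
      (fun q => (hW q.1.card).const_mul _)
      (fun q i => (if i ∈ q.1 then 1 else 0) + (if i = q.2.1 then 1 else 0) + (if i = q.2.2 then 1 else 0))
      (fun q i => by split_ifs <;> norm_num)
    simp only [B9B_mom3] at h
    have e1 : (∑ q : Finset (Fin d) × (Fin d × Fin d),
        (if q.2.1 = q.2.2 then (if q.1 = ∅ then (1 / 2:ℝ) else 0) else (if q.1 = {q.2.1, q.2.2} then 1 / 4 else 0)) *
        ∫ x in (0:ℝ)..1, (1 / (d:ℝ)) * (W x * A q.1.card x))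
        = (1 / 2 : ℝ) * (∫ x in (0:ℝ)..1, W x * A 0 x)
        + ((d : ℝ) - 1) / 4 * ∫ x in (0:ℝ)..1, W x * A 2 x := by
      rw [← Finset.univ_product_univ, Finset.sum_product_right]
      have key : ∀ q : Fin d × Fin d, (∑ T : Finset (Fin d),
          (if q.1 = q.2 then (if T = ∅ then (1 / 2:ℝ) else 0) else (if T = {q.1, q.2} then 1 / 4 else 0)) *
          ∫ x in (0:ℝ)..1, (1 / (d:ℝ)) * (W x * A T.card x))
          = if q.1 = q.2 then 1 / 2 * (1 / (d:ℝ) * ∫ x in (0:ℝ)..1, W x * A 0 x)
            else 1 / 4 * (1 / (d:ℝ) * ∫ x in (0:ℝ)..1, W x * A 2 x) := by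
        intro q
        split_ifs with hq
        · rw [Finset.sum_eq_single ∅]
          · rw [if_pos rfl, intervalIntegral.integral_const_mul, Finset.card_empty]
          · intro b _ hb; rw [if_neg hb, zero_mul]
          · intro h; exact absurd (Finset.mem_univ _) h
        · rw [Finset.sum_eq_single {q.1, q.2}]
          · rw [if_pos rfl, intervalIntegral.integral_const_mul, Finset.card_pair hq]
          · intro b _ hb; rw [if_neg hb, zero_mul]
          · intro h; exact absurd (Finset.mem_univ _) h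
      simp only [key]
      rw [← Finset.univ_product_univ, Finset.sum_product]
      have key2 : ∀ j : Fin d, (∑ k : Fin d, if j = k then 1 / 2 * (1 / (d:ℝ) * ∫ x in (0:ℝ)..1, W x * A 0 x)
            else 1 / 4 * (1 / (d:ℝ) * ∫ x in (0:ℝ)..1, W x * A 2 x))
          = 1 / 2 * (1 / (d:ℝ) * ∫ x in (0:ℝ)..1, W x * A 0 x) +
            ((d:ℝ) - 1) * (1 / 4 * (1 / (d:ℝ) * ∫ x in (0:ℝ)..1, W x * A 2 x)) := by
        intro j
        rw [← Finset.add_sum_erase Finset.univ _ (Finset.mem_univ j), if_pos rfl]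
        congr 1
        rw [Finset.sum_congr rfl (g := fun _ => 1 / 4 * (1 / (d:ℝ) * ∫ x in (0:ℝ)..1, W x * A 2 x))
          (fun k hk => if_neg (fun h => (Finset.mem_erase.mp hk).1 h.symm))]
        rw [Finset.sum_const, Finset.card_erase_of_mem (Finset.mem_univ j), Finset.card_univ,
          Fintype.card_fin, nsmul_eq_mul, Nat.cast_sub (by omega), Nat.cast_one]
      simp only [key2]
      rw [Finset.sum_const, Finset.card_univ, Fintype.card_fin, nsmul_eq_mul]
      field_simp
    rw [e1] at h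
    refine h.congr (fun N => ?_)
    congr 1
    ext x
    rw [← Finset.univ_product_univ, Finset.sum_product]
    unfold GAN FsN
    rw [Finset.mul_sum, Finset.sum_mul]
    refine Finset.sum_congr rfl (fun T _ => ?_)
    rw [div_pow, Real.sq_sqrt hd0.le, sq, Finset.sum_mul_sum, ← Finset.univ_product_univ,
      ← Finset.sum_product', Finset.sum_div, Finset.mul_sum]
    refine Finset.sum_congr rfl (fun q _ => ?_)
    simp only [pow_add, Finset.prod_mul_distrib]
    rw [← B9B_cT, ← B9B_single, ← B9B_single]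
    ring

end

end H892BU.B
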