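import Mathlib

open MeasureTheory Finset

namespace H892BU

/-- `e(n x)` -/
noncomputable def ee (n : ℤ) (x : ℝ) : ℂ := Complex.exp (2 * Real.pi * Complex.I * (n : ℂ) * (x : ℂ))

lemma ee_zero (x : ℝ) : ee 0 x = 1 := by simp [ee]

lemma ee_add (m n : ℤ) (x : ℝ) : ee (m + n) x = ee m x * ee n x := by
  unfold ee
  rw [← Complex.exp_add]
  congr 1
  push_cast
  ring

lemma ee_sum {ι : Type*} (s : Finset ι) (f : ι → ℤ) (x : ℝ) :
    ee (∑ i ∈ s, f i) x = ∏ i ∈ s, ee (f i) x := by
  classical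
  induction s using Finset.induction_on with
  | empty => simp [ee_zero]
  | insert a s ha ih => rw [sum_insert ha, prod_insert ha, ee_add, ih]

lemma continuous_ee (n : ℤ) : Continuous (ee n) := by
  unfold ee
  fun_prop

lemma integral_ee (n : ℤ) : ∫ x in (0:ℝ)..1, ee n x = if n = 0 then 1 else 0 := by
  by_cases h : n = 0
  · subst h; simp [ee_zero]
  · rw [if_neg h]
    have hc : (2 * Real.pi * Complex.I * (n : ℂ)) ≠ 0 := by
      have : (n : ℂ) ≠ 0 := by exact_mod_cast h
      have hpi : (Real.pi : ℂ) ≠ 0 := by exact_mod_cast Real.pi_ne_zero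
      simp [this, hpi, Complex.I_ne_zero]
    unfold ee
    have := integral_exp_mul_complex (a := (0:ℝ)) (b := 1) hc
    rw [this]
    have h1 : Complex.exp (2 * Real.pi * Complex.I * (n : ℂ) * ((1:ℝ) : ℂ)) = 1 := by
      rw [Complex.exp_eq_one_iff]
      exact ⟨n, by push_cast; ring⟩
    rw [h1]
    simp

/-- Dissociation: all nonzero integer combinations with coefficients at most `M` in absolute
value are larger than `K`. -/
def Diss {d : ℕ} (K M : ℕ) (N : Fin d → ℤ) : Prop :=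
  ∀ m : Fin d → ℤ, m ≠ 0 → (∀ i, |m i| ≤ (M : ℤ)) → (K : ℤ) < |∑ i, m i * N i|

lemma Diss.mono {d : ℕ} {K K' M M' : ℕ} {N : Fin d → ℤ} (h : Diss K' M' N) (hK : K ≤ K')
    (hM : M ≤ M') : Diss K M N := by
  intro m hm hb
  have := h m hm (fun i => (hb i).trans (by exact_mod_cast hM))
  have h2 : (K : ℤ) ≤ K' := by exact_mod_cast hK
  linarith

/-- general decoupling on characters -/
theorem decouple_char {d : ℕ} {N : Fin d → ℤ} {K M : ℕ} (hN : Diss K M N) (n : ℤ)
    (hn : |n| ≤ (K : ℤ)) (a : Fin d → ℤ → ℂ) :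
    ∫ x in (0:ℝ)..1, ee n x * ∏ i, (∑ m ∈ Finset.Icc (-(M:ℤ)) M, a i m * ee (m * N i) x)
      = if n = 0 then ∏ i, a i 0 else 0 := by
  have h1 : ∀ x : ℝ, ee n x * ∏ i, (∑ m ∈ Finset.Icc (-(M:ℤ)) M, a i m * ee (m * N i) x)
      = ∑ p ∈ Fintype.piFinset (fun _ : Fin d => Finset.Icc (-(M:ℤ)) M),
        (∏ i, a i (p i)) * ee (n + ∑ i, p i * N i) x := by
    intro x
    rw [Finset.prod_univ_sum, mul_sum]
    apply sum_congr rfl
    intro p _
    rw [prod_mul_distrib, ee_add, ee_sum]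
    ring
  simp_rw [h1]
  rw [intervalIntegral.integral_finsetSum]
  · have h2 : ∀ p ∈ Fintype.piFinset (fun _ : Fin d => Finset.Icc (-(M:ℤ)) M),
        ∫ x in (0:ℝ)..1, (∏ i, a i (p i)) * ee (n + ∑ i, p i * N i) x
          = if p = 0 then (if n = 0 then ∏ i, a i 0 else 0) else 0 := by
      intro p hp
      rw [intervalIntegral.integral_const_mul, integral_ee]
      by_cases hp0 : p = 0
      · subst hp0
        simp
      · rw [if_neg hp0, if_neg, mul_zero]
        intro h
        have hb : ∀ i, |p i| ≤ (M : ℤ) := by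
          intro i
          have := Fintype.mem_piFinset.1 hp i
          rw [Finset.mem_Icc] at this
          exact abs_le.2 this
        have h3 := hN p hp0 hb
        have h4 : ∑ i, p i * N i = -n := by linarith
        rw [h4, abs_neg] at h3
        exact absurd hn (not_le.2 h3)
    rw [sum_congr rfl h2]
    rw [Finset.sum_ite_eq' (Fintype.piFinset (fun _ : Fin d => Finset.Icc (-(M:ℤ)) M)) (0 : Fin d → ℤ)
      (fun _ => (if n = 0 then ∏ i, a i 0 else 0))]
    rw [if_pos]
    rw [Fintype.mem_piFinset]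
    intro i
    simp
  · intro p _
    apply Continuous.intervalIntegrable
    exact continuous_const.mul (continuous_ee _)


/-- Fourier coefficients of `cos ^ k` -/
noncomputable def ac (k : ℕ) (m : ℤ) : ℂ :=
  ∑ j ∈ Finset.range (k + 1), if (2 * (j : ℤ) - k) = m then ((1 / 2 : ℂ)) ^ k * (k.choose j : ℂ) else 0

/-- moments of the cosine -/
noncomputable def Mo (k : ℕ) : ℝ :=
  ∑ j ∈ Finset.range (k + 1), if (2 * (j : ℤ) - k) = 0 then ((1 / 2 : ℝ)) ^ k * (k.choose j : ℝ) else 0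

lemma ac_zero (k : ℕ) : ac k 0 = ((Mo k : ℝ) : ℂ) := by
  unfold ac Mo
  push_cast
  apply sum_congr rfl
  intro j _
  split_ifs <;> push_cast <;> rfl

lemma Mo_zero : Mo 0 = 1 := by simp [Mo]
lemma Mo_one : Mo 1 = 0 := by
  unfold Mo
  simp [Finset.sum_range_succ]
lemma Mo_two : Mo 2 = 1 / 2 := by
  unfold Mo
  simp [Finset.sum_range_succ]
  norm_num
lemma Mo_three : Mo 3 = 0 := by
  unfold Mo
  apply sum_eq_zero
  intro j _
  rw [if_neg]
  push_cast
  omega
lemma Mo_four : Mo 4 = 3 / 8 := by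
  unfold Mo
  simp [Finset.sum_range_succ]
  norm_num [Nat.choose]

lemma ee_nat_mul (j : ℕ) (N : ℤ) (x : ℝ) : ee N x ^ j = ee (j * N) x := by
  unfold ee
  rw [← Complex.exp_nat_mul]
  congr 1
  push_cast
  ring

lemma cos_eq_ee (N : ℤ) (x : ℝ) :
    ((Real.cos (2 * Real.pi * N * x) : ℝ) : ℂ) = (1 / 2) * (ee N x + ee (-N) x) := by
  rw [Complex.ofReal_cos, Complex.cos]
  unfold ee
  push_cast
  rw [show 2 * (Real.pi : ℂ) * (N : ℂ) * (x : ℂ) * Complex.I
      = 2 * (Real.pi : ℂ) * Complex.I * (N : ℂ) * (x : ℂ) by ring,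
    show -(2 * (Real.pi : ℂ) * (N : ℂ) * (x : ℂ)) * Complex.I
      = 2 * (Real.pi : ℂ) * Complex.I * (-(N : ℂ)) * (x : ℂ) by ring]
  ring

lemma cos_pow_eq (k M : ℕ) (hk : k ≤ M) (N : ℤ) (x : ℝ) :
    ((Real.cos (2 * Real.pi * N * x) : ℝ) : ℂ) ^ k
      = ∑ m ∈ Finset.Icc (-(M:ℤ)) M, ac k m * ee (m * N) x := by
  have h1 : ∀ m ∈ Finset.Icc (-(M:ℤ)) M, ac k m * ee (m * N) x
      = ∑ j ∈ Finset.range (k + 1), if (2 * (j : ℤ) - k) = m then
          ((1 / 2 : ℂ)) ^ k * (k.choose j : ℂ) * ee (m * N) x else 0 := by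
    intro m _
    unfold ac
    rw [sum_mul]
    apply sum_congr rfl
    intro j _
    rw [ite_mul, zero_mul]
  rw [sum_congr rfl h1, sum_comm]
  rw [cos_eq_ee, mul_pow, add_pow, mul_sum]
  apply sum_congr rfl
  intro j hj
  rw [mem_range] at hj
  rw [Finset.sum_ite_eq, if_pos]
  · rw [ee_nat_mul, ee_nat_mul, ← ee_add]
    have : (j : ℤ) * N + ((k - j : ℕ) : ℤ) * -N = (2 * (j:ℤ) - k) * N := by
      rw [Nat.cast_sub (by omega)]
      ring
    rw [this]
    ring
  · rw [Finset.mem_Icc]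
    omega

/-- even trigonometric polynomials of degree at most `K` -/
noncomputable def EP (K : ℕ) : Submodule ℝ (ℝ → ℝ) :=
  Submodule.span ℝ {f | ∃ n : ℕ, n ≤ K ∧ f = fun x => Real.cos (2 * Real.pi * n * x)}

lemma cos_mem_EP {n K : ℕ} (h : n ≤ K) : (fun x : ℝ => Real.cos (2 * Real.pi * n * x)) ∈ EP K :=
  Submodule.subset_span ⟨n, h, rfl⟩

lemma EP_mono {K L : ℕ} (h : K ≤ L) : EP K ≤ EP L := by
  apply Submodule.span_mono
  rintro f ⟨n, hn, rfl⟩
  exact ⟨n, hn.trans h, rfl⟩

lemma one_mem_EP (K : ℕ) : (fun _ : ℝ => (1:ℝ)) ∈ EP K := by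
  have := cos_mem_EP (Nat.zero_le K)
  simpa using this

lemma const_mem_EP (K : ℕ) (c : ℝ) : (fun _ : ℝ => c) ∈ EP K := by
  have := (EP K).smul_mem c (one_mem_EP K)
  convert this using 1
  ext x
  simp

lemma cosint_mem_EP {n : ℤ} {K : ℕ} (h : |n| ≤ K) :
    (fun x : ℝ => Real.cos (2 * Real.pi * n * x)) ∈ EP K := by
  have h1 := cos_mem_EP (n := n.natAbs) (K := K) (by
    have : ((n.natAbs : ℕ) : ℤ) ≤ K := by rw [Int.natCast_natAbs]; exact h
    exact_mod_cast this)
  convert h1 using 1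
  ext x
  have e0 : ((n.natAbs : ℕ) : ℝ) = |(n : ℝ)| := by
    rw [Nat.cast_natAbs, Int.cast_abs]
  rw [e0]
  rcases abs_cases (n:ℝ) with ⟨h2, _⟩ | ⟨h2, _⟩
  · rw [h2]
  · rw [h2, ← Real.cos_neg]
    congr 1
    ring

lemma EP_mul {K L : ℕ} {f g : ℝ → ℝ} (hf : f ∈ EP K) (hg : g ∈ EP L) :
    (fun x => f x * g x) ∈ EP (K + L) := by
  induction hf using Submodule.span_induction with
  | mem f hf =>
    obtain ⟨n, hn, rfl⟩ := hf
    induction hg using Submodule.span_induction with
    | mem g hg =>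
      obtain ⟨m, hm, rfl⟩ := hg
      have h1 : (fun x : ℝ => Real.cos (2 * Real.pi * ((n + m : ℤ) : ℝ) * x)) ∈ EP (K + L) :=
        cosint_mem_EP (by push_cast; rw [abs_of_nonneg (by positivity)]; omega)
      have h2 : (fun x : ℝ => Real.cos (2 * Real.pi * ((n - m : ℤ) : ℝ) * x)) ∈ EP (K + L) :=
        cosint_mem_EP (by push_cast; rw [abs_le]; constructor <;> omega)
      have h3 := (EP (K + L)).smul_mem (1/2 : ℝ) ((EP (K + L)).add_mem h1 h2)
      convert h3 using 1
      ext x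
      simp only [Pi.smul_apply, Pi.add_apply, smul_eq_mul]
      push_cast
      rw [show 2 * Real.pi * ((n:ℝ) + m) * x = 2 * Real.pi * n * x + 2 * Real.pi * m * x by ring,
        show 2 * Real.pi * ((n:ℝ) - m) * x = 2 * Real.pi * n * x - 2 * Real.pi * m * x by ring,
        Real.cos_add, Real.cos_sub]
      ring
    | zero => simp only [Pi.zero_apply, mul_zero]; exact (EP (K+L)).zero_mem
    | add g g' _ _ h1 h2 =>
      have := (EP (K+L)).add_mem h1 h2
      convert this using 1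
      ext x
      simp [mul_add]
    | smul c g _ h1 =>
      have := (EP (K+L)).smul_mem c h1
      convert this using 1
      ext x
      simp only [Pi.smul_apply, smul_eq_mul]
      ring
  | zero => simp only [Pi.zero_apply, zero_mul]; exact (EP (K+L)).zero_mem
  | add g g' _ _ h1 h2 =>
    have := (EP (K+L)).add_mem h1 h2
    convert this using 1
    ext x
    simp [add_mul]
  | smul c g _ h1 =>
    have := (EP (K+L)).smul_mem c h1
    convert this using 1
    ext x
    simp only [Pi.smul_apply, smul_eq_mul]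
    ring

lemma continuous_EP {K : ℕ} {f : ℝ → ℝ} (hf : f ∈ EP K) : Continuous f := by
  induction hf using Submodule.span_induction with
  | mem f hf =>
    obtain ⟨n, hn, rfl⟩ := hf
    fun_prop
  | zero => exact continuous_const
  | add g g' _ _ h1 h2 => exact h1.add h2
  | smul c g _ h1 => exact h1.const_smul c

/-- decoupling for even trigonometric polynomials -/
theorem decouple {d : ℕ} {N : Fin d → ℤ} {K M : ℕ} (hN : Diss K M N) {f : ℝ → ℝ} (hf : f ∈ EP K)
    (k : Fin d → ℕ) (hk : ∀ i, k i ≤ M) :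
    ∫ x in (0:ℝ)..1, f x * ∏ i, Real.cos (2 * Real.pi * N i * x) ^ (k i)
      = (∏ i, Mo (k i)) * ∫ x in (0:ℝ)..1, f x := by
  have hcp : Continuous fun x : ℝ => ∏ i, Real.cos (2 * Real.pi * N i * x) ^ (k i) := by fun_prop
  induction hf using Submodule.span_induction with
  | mem f hf =>
    obtain ⟨n, hn, rfl⟩ := hf
    have key : ∀ n : ℤ, |n| ≤ K → ∫ x in (0:ℝ)..1, ee n x * ∏ i,
        ((Real.cos (2 * Real.pi * N i * x) : ℝ) : ℂ) ^ (k i)
        = (∏ i, ((Mo (k i) : ℝ) : ℂ)) * (if n = 0 then 1 else 0) := by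
      intro n hn
      have := decouple_char hN n hn (fun i m => ac (k i) m)
      simp only [ac_zero] at this
      rw [mul_ite, mul_one, mul_zero, ← this]
      apply intervalIntegral.integral_congr
      intro x _
      simp only
      congr 1
      apply prod_congr rfl
      intro i _
      exact cos_pow_eq (k i) M (hk i) (N i) x
    have key2 : ∫ x in (0:ℝ)..1, ((Real.cos (2 * Real.pi * n * x) : ℝ) : ℂ) * ∏ i,
        ((Real.cos (2 * Real.pi * N i * x) : ℝ) : ℂ) ^ (k i)
        = (∏ i, ((Mo (k i) : ℝ) : ℂ)) * ∫ x in (0:ℝ)..1, ((Real.cos (2 * Real.pi * n * x) : ℝ) : ℂ) := by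
      have e1 : ∀ x : ℝ, ((Real.cos (2 * Real.pi * n * x) : ℝ) : ℂ)
          = (1 / 2) * (ee (n : ℤ) x + ee (-(n:ℤ)) x) := by
        intro x
        have := cos_eq_ee (n : ℤ) x
        push_cast at this ⊢
        exact this
      have hcc : Continuous fun x : ℝ => ∏ i,
        ((Real.cos (2 * Real.pi * N i * x) : ℝ) : ℂ) ^ (k i) := by fun_prop
      simp_rw [e1]
      have e2 : ∀ x : ℝ, (1 / 2 : ℂ) * (ee (n : ℤ) x + ee (-(n:ℤ)) x) * ∏ i,
        ((Real.cos (2 * Real.pi * N i * x) : ℝ) : ℂ) ^ (k i)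
        = (1/2) * (ee (n : ℤ) x * ∏ i, ((Real.cos (2 * Real.pi * N i * x) : ℝ) : ℂ) ^ (k i))
         + (1/2) * (ee (-(n : ℤ)) x * ∏ i, ((Real.cos (2 * Real.pi * N i * x) : ℝ) : ℂ) ^ (k i)) := by
        intro x; ring
      simp_rw [e2, mul_add]
      have i1 : ∀ n : ℤ, IntervalIntegrable (fun x : ℝ => (1/2 : ℂ) * (ee n x * ∏ i,
        ((Real.cos (2 * Real.pi * N i * x) : ℝ) : ℂ) ^ (k i))) volume 0 1 := fun n =>
        (continuous_const.mul ((continuous_ee n).mul hcc)).intervalIntegrable _ _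
      have i2 : ∀ n : ℤ, IntervalIntegrable (fun x : ℝ => (1/2 : ℂ) * ee n x) volume 0 1 := fun n =>
        (continuous_const.mul (continuous_ee n)).intervalIntegrable _ _
      rw [intervalIntegral.integral_add (i1 _) (i1 _), intervalIntegral.integral_add (i2 _) (i2 _)]
      simp only [intervalIntegral.integral_const_mul]
      rw [key (n : ℤ) (by rw [Nat.abs_cast]; exact_mod_cast hn),
        key (-(n : ℤ)) (by rw [abs_neg, Nat.abs_cast]; exact_mod_cast hn), integral_ee, integral_ee]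
      ring
    have key3 := congrArg Complex.re key2
    have r1 : ∫ x in (0:ℝ)..1, ((Real.cos (2 * Real.pi * n * x) : ℝ) : ℂ) * ∏ i,
        ((Real.cos (2 * Real.pi * N i * x) : ℝ) : ℂ) ^ (k i)
        = ((∫ x in (0:ℝ)..1, Real.cos (2 * Real.pi * n * x) * ∏ i,
          Real.cos (2 * Real.pi * N i * x) ^ (k i) : ℝ) : ℂ) := by
      rw [← intervalIntegral.integral_ofReal]
      apply intervalIntegral.integral_congr
      intro x _
      push_cast
      rfl
    have r2 : ∫ x in (0:ℝ)..1, ((Real.cos (2 * Real.pi * n * x) : ℝ) : ℂ)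
        = ((∫ x in (0:ℝ)..1, Real.cos (2 * Real.pi * n * x) : ℝ) : ℂ) := by
      rw [← intervalIntegral.integral_ofReal]
    rw [r1, r2, ← Complex.ofReal_prod, ← Complex.ofReal_mul, Complex.ofReal_re,
      Complex.ofReal_re] at key3
    exact key3
  | zero => simp
  | add g g' hg hg' h1 h2 =>
    simp only [Pi.add_apply, add_mul]
    rw [intervalIntegral.integral_add, intervalIntegral.integral_add, h1, h2, mul_add]
    · exact (continuous_EP hg).intervalIntegrable _ _
    · exact (continuous_EP hg').intervalIntegrable _ _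
    · exact ((continuous_EP hg).mul hcp).intervalIntegrable _ _
    · exact ((continuous_EP hg').mul hcp).intervalIntegrable _ _
  | smul c g _ h1 =>
    have e1 : ∀ x : ℝ, (c • g) x * ∏ i, Real.cos (2 * Real.pi * N i * x) ^ (k i)
        = c * (g x * ∏ i, Real.cos (2 * Real.pi * N i * x) ^ (k i)) := by
      intro x; simp only [Pi.smul_apply, smul_eq_mul]; ring
    have e2 : ∀ x : ℝ, (c • g) x = c * g x := fun x => rfl
    simp_rw [e1, e2]
    rw [intervalIntegral.integral_const_mul, intervalIntegral.integral_const_mul, h1]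
    ring

end H892BU
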