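import Mathlib
import Pool.Agent.H892R2.BU.Decouple

open MeasureTheory Finset

namespace H892BU

variable {d : ℕ}

/-- the product of fast cosines over a set of indices -/
noncomputable def cp (N : Fin d → ℤ) (T : Finset (Fin d)) (x : ℝ) : ℝ :=
  ∏ i ∈ T, Real.cos (2 * Real.pi * N i * x)

lemma continuous_cp (N : Fin d → ℤ) (T : Finset (Fin d)) : Continuous (cp N T) := by
  unfold cp
  fun_prop

lemma cp_eq (N : Fin d → ℤ) (T : Finset (Fin d)) (x : ℝ) :
    cp N T x = ∏ i, Real.cos (2 * Real.pi * N i * x) ^ (if i ∈ T then 1 else 0) := by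
  unfold cp
  rw [← Finset.prod_filter_mul_prod_filter_not univ (fun i => i ∈ T)]
  rw [Finset.prod_congr (s₁ := univ.filter (fun i => i ∉ T)) rfl (g := fun _ => (1:ℝ))]
  · rw [prod_const_one, mul_one]
    rw [show univ.filter (fun i => i ∈ T) = T by ext; simp]
    apply prod_congr rfl
    intro i hi
    rw [if_pos hi, pow_one]
  · intro i hi
    rw [mem_filter] at hi
    rw [if_neg hi.2, pow_zero]

/-- slow-fast multilinear sum -/
noncomputable def SF (N : Fin d → ℤ) (a : Finset (Fin d) → ℝ → ℝ) (x : ℝ) : ℝ :=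
  ∑ T : Finset (Fin d), a T x * cp N T x

lemma continuous_SF {N : Fin d → ℤ} {a : Finset (Fin d) → ℝ → ℝ} (ha : ∀ T, Continuous (a T)) :
    Continuous (SF N a) := by
  unfold SF
  exact continuous_finsetSum _ fun T _ => (ha T).mul (continuous_cp N T)

/-- general moment formula -/
theorem moment_SF {N : Fin d → ℤ} {K L M : ℕ} (hN : Diss (K + L) M N) {g : ℝ → ℝ} (hg : g ∈ EP K)
    {a : Finset (Fin d) → ℝ → ℝ} (ha : ∀ T, a T ∈ EP L) (k : Fin d → ℕ) (hk : ∀ i, k i + 1 ≤ M) :
    ∫ x in (0:ℝ)..1, g x * (∏ i, Real.cos (2 * Real.pi * N i * x) ^ (k i)) * SF N a x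
      = ∑ T : Finset (Fin d), (∏ i, Mo (k i + if i ∈ T then 1 else 0)) *
          ∫ x in (0:ℝ)..1, g x * a T x := by
  unfold SF
  have h1 : ∀ x : ℝ, g x * (∏ i, Real.cos (2 * Real.pi * N i * x) ^ (k i)) *
      (∑ T : Finset (Fin d), a T x * cp N T x)
      = ∑ T : Finset (Fin d), (g x * a T x) * ∏ i, Real.cos (2 * Real.pi * N i * x) ^
        (k i + if i ∈ T then 1 else 0) := by
    intro x
    rw [mul_sum]
    apply sum_congr rfl
    intro T _
    rw [cp_eq]
    simp_rw [pow_add]
    rw [prod_mul_distrib]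
    ring
  simp_rw [h1]
  rw [intervalIntegral.integral_finsetSum]
  · apply sum_congr rfl
    intro T _
    have := decouple hN (EP_mul hg (ha T)) (fun i => k i + if i ∈ T then 1 else 0) (by
      intro i
      have := hk i
      split_ifs <;> omega)
    rw [← this]
  · intro T _
    apply Continuous.intervalIntegrable
    exact ((continuous_EP hg).mul (continuous_EP (ha T))).mul (by fun_prop)

lemma prod_Mo_ind (T S : Finset (Fin d)) :
    ∏ i, Mo ((if i ∈ S then 1 else 0) + if i ∈ T then 1 else 0)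
      = if T = S then (1 / 2 : ℝ) ^ T.card else 0 := by
  split_ifs with h
  · subst h
    rw [← Finset.prod_filter_mul_prod_filter_not univ (fun i => i ∈ T)]
    rw [show univ.filter (fun i => i ∈ T) = T by ext; simp]
    rw [Finset.prod_congr (s₁ := T) rfl (g := fun _ => (1/2:ℝ)),
      Finset.prod_congr (s₁ := univ.filter (fun i => i ∉ T)) rfl (g := fun _ => (1:ℝ))]
    · rw [prod_const, prod_const_one, mul_one]
    · intro i hi
      rw [mem_filter] at hi
      simp [hi.2, Mo_zero]
    · intro i hi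
      simp [hi, Mo_two]
  · have : ∃ i, ¬ (i ∈ T ↔ i ∈ S) := by
      by_contra hc
      push Not at hc
      exact h (Finset.ext hc)
    obtain ⟨i, hi⟩ := this
    apply prod_eq_zero (mem_univ i)
    by_cases h1 : i ∈ T <;> by_cases h2 : i ∈ S <;> simp_all [Mo_one]

/-- orthogonality of the fast products -/
theorem inner_SF {N : Fin d → ℤ} {K L L' : ℕ} (hN : Diss (K + L' + L) 2 N) {g : ℝ → ℝ}
    (hg : g ∈ EP K)
    {a b : Finset (Fin d) → ℝ → ℝ} (ha : ∀ T, a T ∈ EP L) (hb : ∀ T, b T ∈ EP L') :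
    ∫ x in (0:ℝ)..1, g x * SF N b x * SF N a x
      = ∑ T : Finset (Fin d), (1 / 2 : ℝ) ^ T.card * ∫ x in (0:ℝ)..1, g x * b T x * a T x := by
  have h1 : ∀ x : ℝ, g x * SF N b x * SF N a x
      = ∑ S : Finset (Fin d), ((g x * b S x) *
          (∏ i, Real.cos (2 * Real.pi * N i * x) ^ (if i ∈ S then 1 else 0))) * SF N a x := by
    intro x
    rw [show SF N b x = ∑ T : Finset (Fin d), b T x * cp N T x from rfl]
    rw [mul_sum, sum_mul]
    apply sum_congr rfl
    intro S _
    rw [cp_eq]
    ring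
  simp_rw [h1]
  have hca : Continuous (SF N a) := continuous_SF fun T => continuous_EP (ha T)
  rw [intervalIntegral.integral_finsetSum]
  · apply sum_congr rfl
    intro S _
    rw [moment_SF (K := K + L') (L := L) hN (EP_mul hg (hb S)) ha
      (fun i => if i ∈ S then 1 else 0) (by intro i; split_ifs <;> omega)]
    simp_rw [prod_Mo_ind]
    rw [Finset.sum_eq_single S]
    · rw [if_pos rfl]
    · intro T _ hT
      rw [if_neg hT, zero_mul]
    · intro h; exact absurd (mem_univ _) h
  · intro S _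
    apply Continuous.intervalIntegrable
    exact (((continuous_EP hg).mul (continuous_EP (hb S))).mul (by fun_prop)).mul hca

/-- Parseval for slow-fast sums -/
theorem sq_SF {N : Fin d → ℤ} {K L : ℕ} (hN : Diss (K + L + L) 2 N) {g : ℝ → ℝ}
    (hg : g ∈ EP K) {a : Finset (Fin d) → ℝ → ℝ} (ha : ∀ T, a T ∈ EP L) :
    ∫ x in (0:ℝ)..1, g x * (SF N a x) ^ 2
      = ∑ T : Finset (Fin d), (1 / 2 : ℝ) ^ T.card * ∫ x in (0:ℝ)..1, g x * (a T x) ^ 2 := by
  have := inner_SF hN hg ha ha
  rw [show (fun x => g x * (SF N a x) ^ 2) = fun x => g x * SF N a x * SF N a x by ext x; ring]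
  rw [this]
  apply sum_congr rfl
  intro T _
  congr 1
  apply intervalIntegral.integral_congr
  intro x _
  simp only
  ring

/-- the coefficients `A_{|T|}` -/
noncomputable def lev (A : ℕ → ℝ → ℝ) : Finset (Fin d) → ℝ → ℝ := fun T => A T.card

/-- the normalised fast sum `d^{-1/2} ∑ cos (2 π N_i x)` -/
noncomputable def FF (N : Fin d → ℤ) (x : ℝ) : ℝ :=
  (Real.sqrt d)⁻¹ * ∑ i, Real.cos (2 * Real.pi * N i * x)

lemma continuous_FF (N : Fin d → ℤ) : Continuous (FF N) := by
  unfold FF
  fun_prop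

theorem int_SF {N : Fin d → ℤ} {K L : ℕ} (hN : Diss (K + L) 1 N) {g : ℝ → ℝ}
    (hg : g ∈ EP K) {a : Finset (Fin d) → ℝ → ℝ} (ha : ∀ T, a T ∈ EP L) :
    ∫ x in (0:ℝ)..1, g x * SF N a x = ∫ x in (0:ℝ)..1, g x * a ∅ x := by
  have := moment_SF hN hg ha (fun _ => 0) (by intro i; simp)
  simp only [pow_zero, prod_const_one, mul_one, zero_add] at this
  rw [this]
  rw [Finset.sum_eq_single ∅]
  · simp [Mo_zero]
  · intro T _ hT
    obtain ⟨i, hi⟩ := Finset.nonempty_iff_ne_empty.2 hT
    rw [prod_eq_zero (mem_univ i), zero_mul]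
    simp [hi, Mo_one]
  · intro h; exact absurd (mem_univ _) h

theorem int_F_SF {N : Fin d → ℤ} {K L : ℕ} (hN : Diss (K + L) 2 N) {g : ℝ → ℝ}
    (hg : g ∈ EP K) {a : Finset (Fin d) → ℝ → ℝ} (ha : ∀ T, a T ∈ EP L) :
    ∫ x in (0:ℝ)..1, g x * FF N x * SF N a x
      = (Real.sqrt d)⁻¹ * ((1 / 2) * ∑ i, ∫ x in (0:ℝ)..1, g x * a {i} x) := by
  have h0 : ∀ i : Fin d, ∫ x in (0:ℝ)..1, g x * Real.cos (2 * Real.pi * N i * x) * SF N a x
      = (1/2) * ∫ x in (0:ℝ)..1, g x * a {i} x := by
    intro i
    have := moment_SF hN hg ha (fun j => if j ∈ ({i} : Finset (Fin d)) then 1 else 0) (by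
      intro j; split_ifs <;> omega)
    simp_rw [prod_Mo_ind] at this
    rw [Finset.sum_eq_single {i}] at this
    · rw [if_pos rfl, card_singleton, pow_one] at this
      rw [← this]
      apply intervalIntegral.integral_congr
      intro x _
      simp only
      rw [← cp_eq]
      simp [cp]
    · intro T _ hT
      rw [if_neg hT, zero_mul]
    · intro h; exact absurd (mem_univ _) h
  have h1 : ∀ x : ℝ, g x * FF N x * SF N a x
      = (Real.sqrt d)⁻¹ * ∑ i, g x * Real.cos (2 * Real.pi * N i * x) * SF N a x := by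
    intro x
    unfold FF
    rw [← sum_mul, ← mul_sum]
    ring
  simp_rw [h1]
  rw [intervalIntegral.integral_const_mul, intervalIntegral.integral_finsetSum]
  · simp_rw [h0]
    rw [← mul_sum]
  · intro i _
    apply Continuous.intervalIntegrable
    exact ((continuous_EP hg).mul (by fun_prop)).mul (continuous_SF fun T => continuous_EP (ha T))

lemma int_cc_SF {N : Fin d → ℤ} {K L : ℕ} (hN : Diss (K + L) 3 N) {g : ℝ → ℝ}
    (hg : g ∈ EP K) {a : Finset (Fin d) → ℝ → ℝ} (ha : ∀ T, a T ∈ EP L) (i j : Fin d) :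
    ∫ x in (0:ℝ)..1, g x * (Real.cos (2 * Real.pi * N i * x) * Real.cos (2 * Real.pi * N j * x))
        * SF N a x
      = if i = j then (1 / 2) * ∫ x in (0:ℝ)..1, g x * a ∅ x
        else (1 / 4) * ∫ x in (0:ℝ)..1, g x * a {i, j} x := by
  split_ifs with hij
  · subst hij
    have := moment_SF hN hg ha (fun l => if l = i then 2 else 0) (by
      intro j; split_ifs <;> omega)
    rw [Finset.sum_eq_single ∅] at this
    · have e1 : (∏ l, Mo ((if l = i then 2 else 0) + if l ∈ (∅ : Finset (Fin d)) then 1 else 0))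
          = 1 / 2 := by
        rw [Finset.prod_eq_single i]
        · simp [Mo_two]
        · intro l _ hl
          simp [hl, Mo_zero]
        · intro h; exact absurd (mem_univ _) h
      rw [e1] at this
      rw [← this]
      apply intervalIntegral.integral_congr
      intro x _
      simp only
      congr 2
      rw [Finset.prod_eq_single i]
      · rw [if_pos rfl]; ring
      · intro l _ hl
        rw [if_neg hl, pow_zero]
      · intro h; exact absurd (mem_univ _) h
    · intro T _ hT
      obtain ⟨l, hl⟩ := Finset.nonempty_iff_ne_empty.2 hT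
      rw [prod_eq_zero (mem_univ l), zero_mul]
      by_cases hli : l = i
      · subst hli
        simp [hl, Mo_three]
      · simp [hli, hl, Mo_one]
    · intro h; exact absurd (mem_univ _) h
  · have := moment_SF hN hg ha (fun l => if l ∈ ({i, j} : Finset (Fin d)) then 1 else 0) (by
      intro j; split_ifs <;> omega)
    simp_rw [prod_Mo_ind] at this
    rw [Finset.sum_eq_single {i, j}] at this
    · rw [if_pos rfl, card_pair hij] at this
      rw [show (1/4:ℝ) = (1/2)^2 by norm_num, ← this]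
      apply intervalIntegral.integral_congr
      intro x _
      simp only
      rw [← cp_eq]
      unfold cp
      rw [prod_pair hij]
    · intro T _ hT
      rw [if_neg hT, zero_mul]
    · intro h; exact absurd (mem_univ _) h

theorem int_FF_SF {N : Fin d → ℤ} {K L : ℕ} (hd : 0 < d) (hN : Diss (K + L) 3 N) {g : ℝ → ℝ}
    (hg : g ∈ EP K) {A : ℕ → ℝ → ℝ} (hA : ∀ k, A k ∈ EP L) :
    ∫ x in (0:ℝ)..1, g x * (FF N x) ^ 2 * SF N (lev A) x
      = (1 / 2) * (∫ x in (0:ℝ)..1, g x * A 0 x)
        + (1 / 4) * ((d:ℝ) - 1) * ∫ x in (0:ℝ)..1, g x * A 2 x := by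
  have ha : ∀ T : Finset (Fin d), lev A T ∈ EP L := fun T => hA _
  have h1 : ∀ x : ℝ, g x * (FF N x) ^ 2 * SF N (lev A) x
      = (d:ℝ)⁻¹ * ∑ i, ∑ j, g x * (Real.cos (2 * Real.pi * N i * x) *
          Real.cos (2 * Real.pi * N j * x)) * SF N (lev A) x := by
    intro x
    unfold FF
    rw [mul_pow, inv_pow, Real.sq_sqrt (Nat.cast_nonneg d)]
    simp_rw [← sum_mul, ← mul_sum]
    rw [sq, ← Finset.sum_mul]
    ring
  simp_rw [h1]
  have hcS : Continuous (SF N (lev A)) := continuous_SF fun T => continuous_EP (ha T)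
  rw [intervalIntegral.integral_const_mul, intervalIntegral.integral_finsetSum]
  · have h2 : ∀ i : Fin d, ∫ x in (0:ℝ)..1, ∑ j, g x * (Real.cos (2 * Real.pi * N i * x) *
          Real.cos (2 * Real.pi * N j * x)) * SF N (lev A) x
        = (1 / 2) * (∫ x in (0:ℝ)..1, g x * A 0 x)
          + (1/4) * ((d:ℝ) - 1) * ∫ x in (0:ℝ)..1, g x * A 2 x := by
      intro i
      rw [intervalIntegral.integral_finsetSum]
      · simp_rw [int_cc_SF hN hg ha]
        rw [← Finset.add_sum_erase univ _ (mem_univ i), if_pos rfl]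
        have h3 : ∀ j ∈ univ.erase i, (if i = j then (1 / 2) * ∫ x in (0:ℝ)..1, g x * lev A (∅ : Finset (Fin d)) x
            else (1 / 4) * ∫ x in (0:ℝ)..1, g x * lev A {i, j} x)
            = (1/4) * ∫ x in (0:ℝ)..1, g x * A 2 x := by
          intro j hj
          rw [mem_erase] at hj
          rw [if_neg (Ne.symm hj.1)]
          unfold lev
          rw [card_pair (Ne.symm hj.1)]
        rw [sum_congr rfl h3, sum_const, card_erase_of_mem (mem_univ i), card_univ, Fintype.card_fin,
          nsmul_eq_mul, Nat.cast_sub (by omega)]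
        unfold lev
        rw [card_empty]
        push_cast
        ring
      · intro j _
        apply Continuous.intervalIntegrable
        exact ((continuous_EP hg).mul (by fun_prop)).mul hcS
    rw [sum_congr rfl (fun i _ => h2 i), sum_const, card_univ, Fintype.card_fin, nsmul_eq_mul]
    have : (d:ℝ) ≠ 0 := by positivity
    field_simp
  · intro i _
    apply Continuous.intervalIntegrable
    apply continuous_finsetSum
    intro j _
    exact ((continuous_EP hg).mul (by fun_prop)).mul hcS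

end H892BU
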