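import Pool.Agent.H691R3.SL.Defs
import Pool.Agent.H892R2.BU.Decouple

/-!
# Block lemma for dissociated frequencies: definitions and asymptotic orthogonality
-/

namespace H892BU.B

open MeasureTheory Set Filter Topology Pool.Agent.H691R3.SL
open scoped Real BigOperators

noncomputable section

/-- `∏_{i ∈ T} cos (2π N_i x)` -/
def cTN {d : ℕ} (N : Fin d → ℤ) (T : Finset (Fin d)) (x : ℝ) : ℝ := ∏ i ∈ T, cs (N i) x

/-- `∑_T A_{|T|}(x) ∏_{i∈T} cos (2π N_i x)` -/
def GAN {d : ℕ} (A : ℕ → ℝ → ℝ) (N : Fin d → ℤ) (x : ℝ) : ℝ :=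
  ∑ T : Finset (Fin d), A T.card x * cTN N T x

/-- the normalised sum `d^{-1/2} ∑ cos (2π N_i x)` -/
def FsN (d : ℕ) (N : Fin d → ℤ) (x : ℝ) : ℝ := (∑ i : Fin d, cs (N i) x) / Real.sqrt d

/-- the filter of very dissociated frequencies -/
def DissF (d : ℕ) : Filter (Fin d → ℤ) := ⨅ K : ℕ, 𝓟 {N | Diss K 4 N}

theorem DissF_basis (d : ℕ) : (DissF d).HasBasis (fun _ : ℕ => True) (fun K => {N | Diss K 4 N}) := by
  unfold DissF
  refine Filter.hasBasis_iInf_principal ?_
  intro K L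
  refine ⟨max K L, ?_, ?_⟩
  · intro N hN
    exact Diss.mono hN (le_max_left _ _) le_rfl
  · intro N hN
    exact Diss.mono hN (le_max_right _ _) le_rfl

theorem mem_DissF {d : ℕ} {P : (Fin d → ℤ) → Prop} :
    (∀ᶠ N in DissF d, P N) ↔ ∃ K : ℕ, ∀ N, Diss K 4 N → P N := by
  rw [(DissF_basis d).eventually_iff]
  simp

/-- nonzero small combinations tend to infinity -/
theorem comb_tendsto {d : ℕ} (p : Fin d → ℤ) (hp : p ≠ 0) (hb : ∀ i, |p i| ≤ 4) :
    Tendsto (fun N : Fin d → ℤ => ∑ i, p i * N i) (DissF d) (cofinite) := by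
  rw [tendsto_def]
  intro s hs
  rw [mem_cofinite] at hs
  obtain ⟨K, hK⟩ : ∃ K : ℕ, ∀ z ∈ sᶜ, |z| ≤ (K : ℤ) := by
    obtain ⟨B, hB⟩ := (hs.image (fun z : ℤ => z.natAbs)).bddAbove
    refine ⟨B, fun z hz => ?_⟩
    have : z.natAbs ≤ B := hB (mem_image_of_mem _ hz)
    rw [← Int.natCast_natAbs]
    exact_mod_cast this
  have : ∀ᶠ N in DissF d, (∑ i, p i * N i) ∈ s := by
    rw [mem_DissF]
    refine ⟨K, fun N hN => ?_⟩
    by_contra hc
    have h1 := hK _ hc
    have h2 := hN p hp (by exact_mod_cast hb)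
    exact absurd h1 (not_le.2 h2)
  exact this

/-- moments of the cosine -/
def momN : ℕ → ℝ
  | 0 => 1
  | 1 => 0
  | 2 => 1 / 2
  | _ => 0

theorem Mo_eq_momN (e : ℕ) (he : e ≤ 3) : Mo e = momN e := by
  interval_cases e
  · exact Mo_zero
  · exact Mo_one
  · exact Mo_two
  · exact Mo_three

/-- Riemann-Lebesgue on `[0,1]` along the integers -/
theorem rl_int (W : ℝ → ℝ) (hW : IntervalIntegrable W volume 0 1) :
    Tendsto (fun n : ℤ => ∫ x in (0:ℝ)..1, (W x : ℂ) * ee n x) cofinite (𝓝 0) := by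
  have h0 := Real.tendsto_integral_exp_smul_cocompact (E := ℂ)
    (fun x => (Set.Ioc (0:ℝ) 1).indicator (fun x => (W x : ℂ)) x)
  have hcast : Tendsto (fun n : ℤ => (-(n : ℝ))) cofinite (cocompact ℝ) := by
    have h1 : Tendsto (fun n : ℤ => (n : ℝ)) cofinite (cocompact ℝ) := Int.tendsto_coe_cofinite
    exact (Homeomorph.neg ℝ).isClosedEmbedding.tendsto_cocompact.comp h1
  have h2 := h0.comp hcast
  refine h2.congr (fun n => ?_)
  simp only [Function.comp]
  rw [intervalIntegral.integral_of_le zero_le_one, ← integral_indicator measurableSet_Ioc]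
  congr 1
  ext x
  by_cases hx : x ∈ Set.Ioc (0:ℝ) 1
  · rw [indicator_of_mem hx, indicator_of_mem hx, Circle.smul_def, Real.fourierChar_apply, smul_eq_mul,
      mul_comm]
    congr 1
    unfold ee
    congr 1
    push_cast
    ring
  · rw [indicator_of_notMem hx, indicator_of_notMem hx, smul_zero]

/-- M8 along the filter `DissF` -/
theorem orthN {d : ℕ} (W : ℝ → ℝ) (hW : IntervalIntegrable W volume 0 1) (e : Fin d → ℕ)
    (he : ∀ i, e i ≤ 3) :
    Tendsto (fun N : Fin d → ℤ => ∫ x in (0:ℝ)..1, W x * ∏ i, (cs (N i) x) ^ (e i)) (DissF d)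
      (𝓝 ((∏ i, momN (e i)) * ∫ x in (0:ℝ)..1, W x)) := by
  have hWc : IntervalIntegrable (fun x => (W x : ℂ)) volume 0 1 := by
    have := hW
    rw [intervalIntegrable_iff_integrableOn_Ioc_of_le zero_le_one] at this ⊢
    exact this.ofReal
  -- complex version
  have key : Tendsto (fun N : Fin d → ℤ => ∫ x in (0:ℝ)..1, (W x : ℂ) *
      ∏ i, ((cs (N i) x : ℝ) : ℂ) ^ (e i)) (DissF d)
      (𝓝 ((∏ i, ((momN (e i) : ℝ) : ℂ)) * ∫ x in (0:ℝ)..1, (W x : ℂ))) := by
    have h1 : ∀ N : Fin d → ℤ, ∫ x in (0:ℝ)..1, (W x : ℂ) * ∏ i, ((cs (N i) x : ℝ) : ℂ) ^ (e i)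
        = ∑ p ∈ Fintype.piFinset (fun _ : Fin d => Finset.Icc (-(4:ℤ)) 4),
          (∏ i, ac (e i) (p i)) * ∫ x in (0:ℝ)..1, (W x : ℂ) * ee (∑ i, p i * N i) x := by
      intro N
      have h2 : ∀ x : ℝ, (W x : ℂ) * ∏ i, ((cs (N i) x : ℝ) : ℂ) ^ (e i)
          = ∑ p ∈ Fintype.piFinset (fun _ : Fin d => Finset.Icc (-(4:ℤ)) 4),
            (∏ i, ac (e i) (p i)) * ((W x : ℂ) * ee (∑ i, p i * N i) x) := by
        intro x
        have h3 : ∀ i, ((cs (N i) x : ℝ) : ℂ) ^ (e i)
            = ∑ m ∈ Finset.Icc (-(4:ℤ)) 4, ac (e i) m * ee (m * N i) x := by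
          intro i
          have := cos_pow_eq (e i) 4 ((he i).trans (by norm_num)) (N i) x
          exact this
        simp_rw [h3]
        rw [Finset.prod_univ_sum, Finset.mul_sum]
        apply Finset.sum_congr rfl
        intro p _
        rw [Finset.prod_mul_distrib, ee_sum]
        ring
      simp_rw [h2]
      rw [intervalIntegral.integral_finset_sum]
      · apply Finset.sum_congr rfl
        intro p _
        rw [intervalIntegral.integral_const_mul]
      · intro p _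
        exact (hWc.mul_continuousOn (continuous_ee _).continuousOn).const_mul _
    simp_rw [h1]
    have hlim : ∀ p ∈ Fintype.piFinset (fun _ : Fin d => Finset.Icc (-(4:ℤ)) 4),
        Tendsto (fun N : Fin d → ℤ => (∏ i, ac (e i) (p i)) *
          ∫ x in (0:ℝ)..1, (W x : ℂ) * ee (∑ i, p i * N i) x) (DissF d)
          (𝓝 (if p = 0 then (∏ i, ((momN (e i) : ℝ) : ℂ)) * ∫ x in (0:ℝ)..1, (W x : ℂ) else 0)) := by
      intro p hp
      by_cases hp0 : p = 0
      · subst hp0
        rw [if_pos rfl]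
        have : ∀ N : Fin d → ℤ, (∏ i, ac (e i) ((0 : Fin d → ℤ) i)) *
            (∫ x in (0:ℝ)..1, (W x : ℂ) * ee (∑ i, (0 : Fin d → ℤ) i * N i) x)
            = (∏ i, ((momN (e i) : ℝ) : ℂ)) * ∫ x in (0:ℝ)..1, (W x : ℂ) := by
          intro N
          congr 1
          · apply Finset.prod_congr rfl
            intro i _
            rw [Pi.zero_apply, ac_zero, Mo_eq_momN (e i) (he i)]
          · apply intervalIntegral.integral_congr
            intro x _
            simp [ee_zero]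
        simp_rw [this]
        exact tendsto_const_nhds
      · rw [if_neg hp0]
        have hb : ∀ i, |p i| ≤ 4 := by
          intro i
          have := Fintype.mem_piFinset.1 hp i
          rw [Finset.mem_Icc] at this
          exact abs_le.2 this
        have h5 := (rl_int W hW).comp (comb_tendsto p hp0 hb)
        have h6 := h5.const_mul (∏ i, ac (e i) (p i))
        rw [mul_zero] at h6
        exact h6
    have hs := tendsto_finset_sum _ hlim
    refine hs.trans (le_of_eq ?_)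
    congr 1
    rw [Finset.sum_ite_eq' _ (0 : Fin d → ℤ)
      (fun _ => (∏ i, ((momN (e i) : ℝ) : ℂ)) * ∫ x in (0:ℝ)..1, (W x : ℂ)), if_pos]
    rw [Fintype.mem_piFinset]
    intro i
    simp
  have key2 := (Complex.continuous_re.tendsto _).comp key
  have e1 : ∀ N : Fin d → ℤ, (∫ x in (0:ℝ)..1, (W x : ℂ) * ∏ i, ((cs (N i) x : ℝ) : ℂ) ^ (e i)).re
      = ∫ x in (0:ℝ)..1, W x * ∏ i, (cs (N i) x) ^ (e i) := by
    intro N
    have : ∫ x in (0:ℝ)..1, (W x : ℂ) * ∏ i, ((cs (N i) x : ℝ) : ℂ) ^ (e i)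
        = ((∫ x in (0:ℝ)..1, W x * ∏ i, (cs (N i) x) ^ (e i) : ℝ) : ℂ) := by
      rw [← intervalIntegral.integral_ofReal]
      apply intervalIntegral.integral_congr
      intro x _
      push_cast
      rfl
    rw [this, Complex.ofReal_re]
  have e2 : ((∏ i, ((momN (e i) : ℝ) : ℂ)) * ∫ x in (0:ℝ)..1, (W x : ℂ)).re
      = (∏ i, momN (e i)) * ∫ x in (0:ℝ)..1, W x := by
    rw [intervalIntegral.integral_ofReal, ← Complex.ofReal_prod, ← Complex.ofReal_mul,
      Complex.ofReal_re]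
  rw [e2] at key2
  exact key2.congr e1

end

end H892BU.B
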